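import Mathlib
import Pool.Agent.Q183.GH.Triples

/-!
# Simultaneous optimal correspondences versus simultaneous Hausdorff realisation

Statement (C) fails for three four-point spaces: their optimal correspondences are unique and do
not compose.  Hence (C) implies (H).  Statement (H) fails as well, for the three-point spaces
`{0, 10, 30}`, `{0, 9, 29}`, `{0, 10, 29}`; these admit a simultaneous optimal correspondence, so
that for individual triples the implication fails.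
-/

set_option autoImplicit false

namespace Pool.Agent.Results.MP_c3dba2_gt.BothFail

open Pool.Agent.Q183.GH Set

/-- There are a compact metric space `Z` and isometric embeddings of `X₁`, `X₂`, `X₃` into `Z` such
that all Hausdorff distances of the images are the Gromov-Hausdorff distances. -/
def HTriple (X₁ X₂ X₃ : Type) [MetricSpace X₁] [MetricSpace X₂] [MetricSpace X₃] : Prop :=
  ∃ (Z : Type) (_ : MetricSpace Z) (_ : CompactSpace Z) (φ₁ : X₁ → Z) (φ₂ : X₂ → Z)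
    (φ₃ : X₃ → Z), Isometry φ₁ ∧ Isometry φ₂ ∧ Isometry φ₃ ∧
      Metric.hausdorffDist (range φ₁) (range φ₂) = dGH X₁ X₂ ∧
      Metric.hausdorffDist (range φ₁) (range φ₃) = dGH X₁ X₃ ∧
      Metric.hausdorffDist (range φ₂) (range φ₃) = dGH X₂ X₃

/-- There is a set `R ⊆ X₁ × X₂ × X₃` whose three projections are optimal correspondences. -/
def CTriple (X₁ X₂ X₃ : Type) [MetricSpace X₁] [MetricSpace X₂] [MetricSpace X₃] : Prop :=
  ∃ R : Set (X₁ × X₂ × X₃), IsOptimal (e12 R) ∧ IsOptimal (e13 R) ∧ IsOptimal (e23 R)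

/-- Statement (H). -/
def H : Prop := ∀ (X₁ X₂ X₃ : Type) [MetricSpace X₁] [MetricSpace X₂] [MetricSpace X₃]
  [CompactSpace X₁] [CompactSpace X₂] [CompactSpace X₃] [Nonempty X₁] [Nonempty X₂]
  [Nonempty X₃], HTriple X₁ X₂ X₃

/-- Statement (C). -/
def C : Prop := ∀ (X₁ X₂ X₃ : Type) [MetricSpace X₁] [MetricSpace X₂] [MetricSpace X₃]
  [CompactSpace X₁] [CompactSpace X₂] [CompactSpace X₃] [Nonempty X₁] [Nonempty X₂]
  [Nonempty X₃], CTriple X₁ X₂ X₃

/-! ### The four-point spaces -/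

/-- The first metric. -/
def M₁ : IntMetric 4 where
  D := ![![0, 100, 112, 120], ![100, 0, 120, 108], ![112, 120, 0, 130], ![120, 108, 130, 0]]
  self := by decide
  symm := by decide
  tri := by decide
  pos := by decide

/-- The second metric. -/
def M₂ : IntMetric 4 where
  D := ![![0, 100, 112, 122], ![100, 0, 118, 108], ![112, 118, 0, 130], ![122, 108, 130, 0]]
  self := by decide
  symm := by decide
  tri := by decide
  pos := by decide

/-- The third metric. -/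
def M₃ : IntMetric 4 where
  D := ![![0, 100, 109, 122], ![100, 0, 118, 111], ![109, 118, 0, 130], ![122, 111, 130, 0]]
  self := by decide
  symm := by decide
  tri := by decide
  pos := by decide

set_option maxRecDepth 100000 in
lemma le12 : ∀ f : Fin 4 → Fin 4, Le M₁ M₂ 2 f → f = id := by
  decide +kernel

set_option maxRecDepth 100000 in
lemma le23 : ∀ f : Fin 4 → Fin 4, Le M₂ M₃ 3 f → f = id := by
  decide +kernel

set_option maxRecDepth 100000 in
lemma le13 : ∀ f : Fin 4 → Fin 4, Le M₁ M₃ 2 f → f = ![1, 0, 3, 2] := by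
  decide +kernel

lemma not_CTriple : ¬ CTriple (Pt M₁) (Pt M₂) (Pt M₃) := by
  rintro ⟨R, h12, h13, h23⟩
  have g12 := h12.subset_graph id 2 le12 (by decide) (by norm_num) (by decide)
  have g23 := h23.subset_graph id 3 le23 (by decide) (by norm_num) (by decide)
  have g13 := h13.subset_graph ![1, 0, 3, 2] 2 le13 (by decide) (by norm_num) (by decide)
  obtain ⟨y, ⟨x₁, x₂, x₃⟩, hR, hx⟩ := h12.1.left ⟨0⟩
  obtain ⟨h1, -⟩ := Prod.mk.inj hx
  have h1' : x₁.val = 0 := congrArg Pt.val h1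
  have a12 : x₂.val = id x₁.val := g12 ⟨_, hR, rfl⟩
  have a23 : x₃.val = id x₂.val := g23 ⟨_, hR, rfl⟩
  have a13 : x₃.val = (![1, 0, 3, 2] : Fin 4 → Fin 4) x₁.val := g13 ⟨_, hR, rfl⟩
  rw [a23, a12, h1'] at a13
  exact absurd a13 (by decide)

/-! ### The three-point spaces -/

/-- The space `{0, 10, 30}`. -/
def N₁ : IntMetric 3 where
  D := ![![0, 10, 30], ![10, 0, 20], ![30, 20, 0]]
  self := by decide
  symm := by decide
  tri := by decide
  pos := by decide

/-- The space `{0, 9, 29}`. -/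
def N₂ : IntMetric 3 where
  D := ![![0, 9, 29], ![9, 0, 20], ![29, 20, 0]]
  self := by decide
  symm := by decide
  tri := by decide
  pos := by decide

/-- The space `{0, 10, 29}`. -/
def N₃ : IntMetric 3 where
  D := ![![0, 10, 29], ![10, 0, 19], ![29, 19, 0]]
  self := by decide
  symm := by decide
  tri := by decide
  pos := by decide

set_option maxRecDepth 100000 in
lemma nle12 : ∀ f : Fin 3 → Fin 3, Le N₁ N₂ 1 f → f = id := by
  decide +kernel

set_option maxRecDepth 100000 in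
lemma nle23 : ∀ f : Fin 3 → Fin 3, Le N₂ N₃ 1 f → f = id := by
  decide +kernel

set_option maxRecDepth 100000 in
lemma nle13 : ∀ f : Fin 3 → Fin 3, Le N₁ N₃ 1 f → f = id := by
  decide +kernel

/-- The diagonal. -/
def diag : Set (Pt N₁ × Pt N₂ × Pt N₃) := {p | p.2.1.val = p.1.val ∧ p.2.2.val = p.1.val}

lemma e12_diag : e12 diag = graph N₁ N₂ id := by
  ext ⟨x, y⟩
  constructor
  · rintro ⟨⟨a, b, c⟩, ⟨h1, h2⟩, h⟩
    obtain ⟨rfl, rfl⟩ := Prod.mk.inj h
    exact h1
  · intro h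
    exact ⟨(x, y, ⟨x.val⟩), ⟨h, rfl⟩, rfl⟩

lemma e13_diag : e13 diag = graph N₁ N₃ id := by
  ext ⟨x, y⟩
  constructor
  · rintro ⟨⟨a, b, c⟩, ⟨h1, h2⟩, h⟩
    obtain ⟨rfl, rfl⟩ := Prod.mk.inj h
    exact h2
  · intro h
    exact ⟨(x, ⟨x.val⟩, y), ⟨rfl, h⟩, rfl⟩

lemma e23_diag : e23 diag = graph N₂ N₃ id := by
  ext ⟨x, y⟩
  constructor
  · rintro ⟨⟨a, b, c⟩, ⟨h1, h2⟩, h⟩
    obtain ⟨rfl, rfl⟩ := Prod.mk.inj h
    exact h2.trans h1.symm
  · intro h
    exact ⟨(⟨x.val⟩, x, y), ⟨rfl, h⟩, rfl⟩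

/-- If every map has integer distortion at least `1` and the identity has integer distortion at
most `1`, then the graph of the identity is optimal. -/
lemma isOptimal_graph_id {n : ℕ} {M M' : IntMetric (n + 1)} (h1 : Le M M' 1 id)
    (h0 : ∀ f : Fin (n + 1) → Fin (n + 1), ¬ Le M M' 0 f) : IsOptimal (graph M M' id) ∧
      dGH (Pt M) (Pt M') = 1 / 2 := by
  have hid : IsCorrespondence (graph M M' id) := isCorrespondence_graph M M' id fun j => ⟨j, rfl⟩
  have hle : distortion (graph M M' id) ≤ 1 := by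
    exact_mod_cast distortion_graph_le M M' id 1 zero_le_one h1
  have hge : ∀ S : Set (Pt M × Pt M'), IsCorrespondence S → 1 ≤ distortion S := by
    intro S hS
    by_contra hlt
    push Not at hlt
    choose f hf using hS.left
    refine h0 (fun i => (f ⟨i⟩).val) fun i j => ?_
    have h2 := le_distortion (hf ⟨i⟩) (hf ⟨j⟩)
    rw [dist_eq, dist_eq] at h2
    have h3 := h2.trans_lt hlt
    have h4 : |M.D i j - M'.D (f ⟨i⟩).val (f ⟨j⟩).val| < 1 := by exact_mod_cast h3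
    exact Int.lt_add_one_iff.1 (by simpa using h4)
  have h2 : dGH (Pt M) (Pt M') ≤ 1 / 2 := dGH_le hid (by linarith)
  have h3 : 1 / 2 ≤ dGH (Pt M) (Pt M') := le_dGH ⟨_, hid⟩ fun S hS => by linarith [hge S hS]
  have h4 := hge _ hid
  exact ⟨⟨hid, by linarith⟩, by linarith⟩

set_option maxRecDepth 100000 in
lemma opt12 : IsOptimal (graph N₁ N₂ id) ∧ dGH (Pt N₁) (Pt N₂) = 1 / 2 :=
  isOptimal_graph_id (by decide) (by decide +kernel)

set_option maxRecDepth 100000 in
lemma opt13 : IsOptimal (graph N₁ N₃ id) ∧ dGH (Pt N₁) (Pt N₃) = 1 / 2 :=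
  isOptimal_graph_id (by decide) (by decide +kernel)

set_option maxRecDepth 100000 in
lemma opt23 : IsOptimal (graph N₂ N₃ id) ∧ dGH (Pt N₂) (Pt N₃) = 1 / 2 :=
  isOptimal_graph_id (by decide) (by decide +kernel)

lemma CTriple_diag : CTriple (Pt N₁) (Pt N₂) (Pt N₃) := by
  refine ⟨diag, ?_, ?_, ?_⟩
  · rw [e12_diag]
    exact opt12.1
  · rw [e13_diag]
    exact opt13.1
  · rw [e23_diag]
    exact opt23.1

/-- If the Hausdorff distance of the images of two of the spaces is less than `3/5`, then images of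
corresponding points have distance less than `3/5`. -/
lemma dist_lt {Z : Type} [MetricSpace Z] {n : ℕ} {M M' : IntMetric (n + 1)}
    (hid : ∀ f : Fin (n + 1) → Fin (n + 1), Le M M' 1 f → f = id) {φ : Pt M → Z} {ψ : Pt M' → Z}
    (hφ : Isometry φ) (hψ : Isometry ψ) (h : Metric.hausdorffDist (range φ) (range ψ) < 3 / 5)
    (i : Fin (n + 1)) : dist (φ ⟨i⟩) (ψ ⟨i⟩) < 3 / 5 := by
  have hb : Metric.hausdorffEDist (range φ) (range ψ) ≠ ⊤ :=
    Metric.hausdorffEDist_ne_top_of_nonempty_of_bounded (range_nonempty _) (range_nonempty _)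
      (finite_range φ).isBounded (finite_range ψ).isBounded
  have hex : ∀ x, ∃ y, dist (φ x) (ψ y) < 3 / 5 := by
    intro x
    obtain ⟨_, ⟨y, rfl⟩, hy⟩ := Metric.exists_dist_lt_of_hausdorffDist_lt (mem_range_self x) h hb
    exact ⟨y, hy⟩
  have hsub := subset_graph M M' id 1 hid {p | dist (φ p.1) (ψ p.2) < 3 / 5} hex (by
    intro x y x' y' h1 h2
    change dist (φ x) (ψ y) < 3 / 5 at h1
    change dist (φ x') (ψ y') < 3 / 5 at h2
    rw [← hφ.dist_eq, ← hψ.dist_eq, abs_lt]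
    have h3 := dist_triangle4 (φ x) (ψ y) (ψ y') (φ x')
    have h4 := dist_triangle4 (ψ y) (φ x) (φ x') (ψ y')
    rw [dist_comm (ψ y')] at h3
    rw [dist_comm (ψ y) (φ x)] at h4
    push_cast
    constructor <;> linarith)
  obtain ⟨y, hy⟩ := hex ⟨i⟩
  have h1 : y.val = id i := hsub (show ((⟨i⟩ : Pt M), y) ∈ {p : Pt M × Pt M' |
    dist (φ p.1) (ψ p.2) < 3 / 5} from hy)
  have h2 : y = ⟨i⟩ := Pt.ext' h1
  rwa [h2] at hy

lemma not_HTriple : ¬ HTriple (Pt N₁) (Pt N₂) (Pt N₃) := by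
  rintro ⟨Z, _, _, φ₁, φ₂, φ₃, h₁, h₂, h₃, h12, h13, h23⟩
  rw [opt12.2] at h12
  rw [opt13.2] at h13
  rw [opt23.2] at h23
  have a1 := dist_lt nle12 h₁ h₂ (by rw [h12]; norm_num) 0
  have a2 := dist_lt nle23 h₂ h₃ (by rw [h23]; norm_num) 1
  have a3 := dist_lt nle13 h₁ h₃ (by rw [h13]; norm_num) 2
  have d1 : dist (φ₁ ⟨0⟩) (φ₁ ⟨2⟩) = 30 := by
    rw [h₁.dist_eq, dist_eq]
    simp [N₁]
  have d2 : dist (φ₂ ⟨0⟩) (φ₂ ⟨1⟩) = 9 := by
    rw [h₂.dist_eq, dist_eq]
    simp [N₂]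
  have d3 : dist (φ₃ ⟨1⟩) (φ₃ ⟨2⟩) = 19 := by
    rw [h₃.dist_eq, dist_eq]
    simp [N₃]
  have t1 := dist_triangle4 (φ₁ ⟨0⟩) (φ₂ ⟨0⟩) (φ₂ ⟨1⟩) (φ₃ ⟨1⟩)
  have t2 := dist_triangle4 (φ₁ ⟨0⟩) (φ₃ ⟨1⟩) (φ₃ ⟨2⟩) (φ₁ ⟨2⟩)
  rw [dist_comm (φ₃ ⟨2⟩)] at t2
  linarith

lemma not_C : ¬ C := fun h => not_CTriple (h _ _ _)

lemma not_H : ¬ H := fun h => not_HTriple (h _ _ _)

/-- (C) implies (H), since (C) is false; (H) is false, too; and for individual triples of compact
metric spaces the implication fails. -/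
theorem result : (C → H) ∧ ¬ C ∧ ¬ H ∧
    ∃ (X₁ X₂ X₃ : Type) (_ : MetricSpace X₁) (_ : MetricSpace X₂) (_ : MetricSpace X₃),
      CompactSpace X₁ ∧ CompactSpace X₂ ∧ CompactSpace X₃ ∧
      Nat.card X₁ = 3 ∧ Nat.card X₂ = 3 ∧ Nat.card X₃ = 3 ∧
      CTriple X₁ X₂ X₃ ∧ ¬ HTriple X₁ X₂ X₃ := by
  have hc : ∀ M : IntMetric 3, Nat.card (Pt M) = 3 := fun M => by
    rw [Nat.card_congr (⟨Pt.val, Pt.mk, fun _ => rfl, fun _ => rfl⟩ : Pt M ≃ Fin 3)]
    simp
  exact ⟨fun h => absurd h not_C, not_C, not_H, Pt N₁, Pt N₂, Pt N₃, inferInstance,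
    inferInstance, inferInstance, inferInstance, inferInstance, inferInstance, hc _, hc _, hc _,
    CTriple_diag, not_HTriple⟩

end Pool.Agent.Results.MP_c3dba2_gt.BothFail
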